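import Mathlib
import Pool.Agent.H694R3.Gf4

open Filter Topology MeasureTheory

namespace Pool.Agent.Results.MP_5317c0_an.HilbertRepAnswers

universe u v

/-- The Fourier transform `n ↦ ∫ exp (2 π i n t) dρ(t)` of a positive Borel measure `ρ` on the
circle `ℝ / ℤ` (in Mathlib `fourier n` is the character `t ↦ exp (2 π i n t)` of `ℝ / ℤ`). -/
noncomputable def transform (ρ : Measure UnitAddCircle) (n : ℤ) : ℂ :=
  ∫ t : UnitAddCircle, fourier n t ∂ρ

/-- `h ∈ B(ℤ)`: `h` is the Fourier transform of a complex Borel measure on the circle. A complex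
measure is written as `ρ 0 - ρ 1 + i (ρ 2 - ρ 3)` with finite positive Borel measures `ρ k`. -/
def MemB (h : ℤ → ℂ) : Prop :=
  ∃ ρ : Fin 4 → Measure UnitAddCircle, (∀ k, IsFiniteMeasure (ρ k)) ∧
    ∀ n, h n = transform (ρ 0) n - transform (ρ 1) n
      + Complex.I * (transform (ρ 2) n - transform (ρ 3) n)

/-- `h ∈ H(ℤ)`: `h` is a uniform limit of elements of `B(ℤ)`. -/
def MemH (h : ℤ → ℂ) : Prop :=
  ∀ ε : ℝ, 0 < ε → ∃ b, MemB b ∧ ∀ n, ‖h n - b n‖ ≤ ε

/-- `(X, T)` is a point-transitive Hilbert system: there is a point `x₀` with dense orbit such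
that `𝒜(X, x₀) ⊆ H(ℤ)`. -/
def TransitiveHilbert {X : Type v} [TopologicalSpace X] (T : X ≃ₜ X) : Prop :=
  ∃ x₀ : X, Dense (Set.range fun n : ℤ => (T ^ n) x₀) ∧
    ∀ F : C(X, ℂ), MemH fun n => F ((T ^ n) x₀)

/-- The system `(Y, R)` is Hilbert representable over the scalar field `𝕜`: there are a
Hilbert space `H` over `𝕜`, a unitary operator `U` on `H` and a topological embedding `α` of `Y`
into `H` with its weak topology such that `α ∘ R = U ∘ α`. -/
def HilbertRepresentable (𝕜 : Type) [RCLike 𝕜] {Y : Type v} [TopologicalSpace Y]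
    (R : Y ≃ₜ Y) : Prop :=
  ∃ (H : Type u) (_ : NormedAddCommGroup H) (_ : InnerProductSpace 𝕜 H) (_ : CompleteSpace H)
    (U : H ≃ₗᵢ[𝕜] H) (α : Y → H),
    IsEmbedding (fun y => toWeakSpace 𝕜 H (α y)) ∧ ∀ y, α (R y) = U (α y)

/-- `π` is a factor map `(X, T) → (Y, S)`. -/
def IsFactorMap {X : Type u} {Y : Type v} [TopologicalSpace X] [TopologicalSpace Y]
    (T : X ≃ₜ X) (S : Y ≃ₜ Y) (π : X → Y) : Prop :=
  Continuous π ∧ Function.Surjective π ∧ ∀ x, π (T x) = S (π x)

/-- `(Y, S)` is the quotient of `(X, T)` by a group `K` (compact or not) of homeomorphisms of `X`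
commuting with `T`. For compact `X` and Hausdorff `Y` this says that there is a factor map whose
fibres are the orbits of `K`. -/
def IsQuotientByGroup {X : Type u} {Y : Type v} [TopologicalSpace X] [TopologicalSpace Y]
    (T : X ≃ₜ X) (S : Y ≃ₜ Y) : Prop :=
  ∃ (K : Subgroup (X ≃ₜ X)) (π : X → Y), (∀ k ∈ K, ∀ x, k (T x) = T (k x)) ∧
    IsFactorMap T S π ∧ ∀ x y, π x = π y ↔ ∃ k ∈ K, k x = y

lemma continuous_inner_of_weak {𝕜 : Type} [RCLike 𝕜] {Y : Type*} [TopologicalSpace Y]
    {H : Type*} [NormedAddCommGroup H] [InnerProductSpace 𝕜 H] {α : Y → H}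
    (h : Continuous fun y => toWeakSpace 𝕜 H (α y)) (v : H) :
    Continuous fun y => inner 𝕜 v (α y) :=
  (WeakBilin.eval_continuous (topDualPairing 𝕜 H).flip (innerSL 𝕜 v)).comp h

lemma embedding_of_weak {Y : Type*} [TopologicalSpace Y] [CompactSpace Y]
    {H : Type*} [NormedAddCommGroup H] [InnerProductSpace ℂ H] [CompleteSpace H] {α : Y → H}
    (hi : Function.Injective α) (h : ∀ v : H, Continuous fun y => inner ℂ v (α y)) :
    IsEmbedding fun y => toWeakSpace ℂ H (α y) := by
  have hc : Continuous fun y => toWeakSpace ℂ H (α y) := by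
    refine WeakBilin.continuous_of_continuous_eval _ fun f => ?_
    have := h ((InnerProductSpace.toDual ℂ H).symm f)
    simp only [InnerProductSpace.toDual_symm_apply] at this
    exact this
  exact (hc.isClosedEmbedding fun x y hxy => hi ((toWeakSpace ℂ H).injective hxy)).isEmbedding

lemma not_quotient (𝕜 : Type) [RCLike 𝕜] {X : Type v} [TopologicalSpace X] [CompactSpace X]
    [T2Space X] (T : X ≃ₜ X) (h : HilbertRepresentable.{u, v} 𝕜 T) :
    ¬ IsQuotientByGroup T Pool.Agent.H694R3.Hs.SS := by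
  rintro ⟨K, π, hK, ⟨hπ, hs, he⟩, horb⟩
  obtain ⟨H, _, _, _, U, α, hα, hU⟩ := h
  refine Pool.Agent.H694R3.Gf.no_group T (K : Set (X ≃ₜ X)) π hπ hs he hK
    (fun x y hxy => (horb x y).1 hxy) U α ?_ (continuous_inner_of_weak hα.continuous) hU
  intro x y hxy
  apply hα.injective
  simp only [hxy]

lemma self_quotient {X : Type v} [TopologicalSpace X] (T : X ≃ₜ X) : IsQuotientByGroup T T := by
  refine ⟨⊥, id, ?_, ⟨continuous_id, Function.surjective_id, fun _ => rfl⟩, ?_⟩
  · intro k hk x
    rw [Subgroup.mem_bot] at hk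
    subst hk
    rfl
  · intro x y
    constructor
    · intro h
      exact ⟨1, Subgroup.mem_bot.2 rfl, h⟩
    · rintro ⟨k, hk, h⟩
      rw [Subgroup.mem_bot] at hk
      subst hk
      exact h

/-- (a) and (b) are false: there is a metrizable recurrent-transitive Hilbert system which is not
Hilbert representable and is not a group-factor of any Hilbert representable system. (c) is true:
every metrizable point-transitive Hilbert system (recurrent or not) is the image of a metrizable
Hilbert representable system under an almost one-to-one factor map. -/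
theorem result :
    (∃ (X : Type) (_ : TopologicalSpace X) (_ : CompactSpace X)
      (_ : TopologicalSpace.MetrizableSpace X) (T : X ≃ₜ X),
      -- `X` is a point-transitive Hilbert system without isolated points
      TransitiveHilbert T ∧ (∀ x : X, ¬ IsOpen ({x} : Set X)) ∧
      -- (a) fails
      ¬ HilbertRepresentable.{u, 0} ℝ T ∧ ¬ HilbertRepresentable.{u, 0} ℂ T ∧
      -- (b) fails
      ∀ (X' : Type v) (_ : TopologicalSpace X') (_ : CompactSpace X') (_ : T2Space X')
        (T' : X' ≃ₜ X'),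
        (HilbertRepresentable.{u, v} ℝ T' ∨ HilbertRepresentable.{u, v} ℂ T') →
        ¬ IsQuotientByGroup T' T) ∧
    -- (c) holds
    ∀ (Y : Type v) (_ : TopologicalSpace Y) (_ : CompactSpace Y)
      (_ : TopologicalSpace.MetrizableSpace Y) (S : Y ≃ₜ Y), TransitiveHilbert S →
      ∃ (X : Type v) (_ : TopologicalSpace X) (_ : CompactSpace X)
        (_ : TopologicalSpace.MetrizableSpace X) (T : X ≃ₜ X) (π : X → Y),
        HilbertRepresentable.{0, v} ℂ T ∧ IsFactorMap T S π ∧
        ∃ X₀ : Set X, IsGδ X₀ ∧ Dense X₀ ∧ ∀ x ∈ X₀, π ⁻¹' {π x} = {x} := by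
  constructor
  · refine ⟨Pool.Agent.H694R3.Hs.XX, inferInstance, inferInstance, inferInstance,
      Pool.Agent.H694R3.Hs.SS,
      ⟨Pool.Agent.H694R3.Hs.x0, Pool.Agent.H694R3.Hs.XX_dense, Pool.Agent.H694R3.Hs.XX_hilbert⟩,
      Pool.Agent.H694R3.Hs.XX_no_isolated, ?_, ?_, ?_⟩
    · intro h
      exact not_quotient ℝ _ h (self_quotient _)
    · intro h
      exact not_quotient ℂ _ h (self_quotient _)
    · intro X' _ _ _ T' h
      rcases h with h | h
      · exact not_quotient ℝ T' h
      · exact not_quotient ℂ T' h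
  · intro Y _ _ _ S hS
    obtain ⟨y₀, hd, hH⟩ := hS
    let _ := TopologicalSpace.metrizableSpaceMetric Y
    have : Nonempty Y := ⟨y₀⟩
    obtain ⟨H, _, _, _, U, z, hz, hη⟩ := Pool.Agent.H694R3.Gf.exists_vector S y₀ hH
    have hcomp := Pool.Agent.H694R3.Gf.compact_XP U z S y₀
    have hπ : Continuous fun x : Pool.Agent.H694R3.Gf.XP U z S y₀ => x.1.2 :=
      continuous_snd.comp continuous_subtype_val
    refine ⟨Pool.Agent.H694R3.Gf.XP U z S y₀, inferInstance, hcomp, inferInstance,
      Pool.Agent.H694R3.Gf.SP U z S y₀, fun x => x.1.2,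
      ⟨H, inferInstance, inferInstance, inferInstance, U, Pool.Agent.H694R3.Gf.al U z S y₀,
        embedding_of_weak ?_ (Pool.Agent.H694R3.Gf.al_cont U z S y₀),
        Pool.Agent.H694R3.Gf.al_SP U z S y₀⟩, ⟨hπ, ?_, fun _ => rfl⟩,
      {x | ∀ x', x'.1.2 = x.1.2 → x' = x}, Pool.Agent.H694R3.Gf.isGδ_inj _ hπ, ?_, ?_⟩
    · -- injectivity
      intro x x' hxx
      have key : ∀ (w : Pool.Agent.H694R3.Gf.XP U z S y₀) (j : ℕ) (ε : ℝ) (η : H),
          (∀ n : ℤ, ‖((dist ((S ^ n) y₀) (TopologicalSpace.denseSeq Y j) : ℝ) : ℂ)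
            - inner ℂ η ((U ^ n) z)‖ ≤ ε) →
          ‖((dist w.1.2 (TopologicalSpace.denseSeq Y j) : ℝ) : ℂ)
            - inner ℂ η (Pool.Agent.H694R3.Gf.al U z S y₀ w)‖ ≤ ε := by
        intro w j ε η h
        obtain ⟨𝒰, hU, hal⟩ := Pool.Agent.H694R3.Gf.al_ultra U z S y₀ w
        rw [hal]
        have h1 := Pool.Agent.H694R3.Gf.WL_tendsto U 𝒰 z η
        have h2 : Tendsto (fun n : ℤ =>
            ((dist ((S ^ n) y₀) (TopologicalSpace.denseSeq Y j) : ℝ) : ℂ)) 𝒰
            (𝓝 ((dist w.1.2 (TopologicalSpace.denseSeq Y j) : ℝ) : ℂ)) := by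
          have hc : Continuous fun p : (ℤ → ℂ) × Y =>
              ((dist p.2 (TopologicalSpace.denseSeq Y j) : ℝ) : ℂ) := by fun_prop
          exact (hc.tendsto _).comp hU
        exact le_of_tendsto (h2.sub h1).norm (Eventually.of_forall h)
      have h3 : ∀ j, dist x.1.2 (TopologicalSpace.denseSeq Y j)
          = dist x'.1.2 (TopologicalSpace.denseSeq Y j) := by
        intro j
        by_contra hne
        have hpos : 0 < |dist x.1.2 (TopologicalSpace.denseSeq Y j)
          - dist x'.1.2 (TopologicalSpace.denseSeq Y j)| := abs_pos.2 (sub_ne_zero.2 hne)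
        obtain ⟨η, hη'⟩ := hη j (|dist x.1.2 (TopologicalSpace.denseSeq Y j)
          - dist x'.1.2 (TopologicalSpace.denseSeq Y j)| / 3) (by positivity)
        have h4 := key x j _ η hη'
        have h5 := key x' j _ η hη'
        rw [← hxx] at h5
        have h6 := norm_sub_le_norm_sub_add_norm_sub
          ((dist x.1.2 (TopologicalSpace.denseSeq Y j) : ℝ) : ℂ)
          (inner ℂ η (Pool.Agent.H694R3.Gf.al U z S y₀ x))
          ((dist x'.1.2 (TopologicalSpace.denseSeq Y j) : ℝ) : ℂ)
        rw [norm_sub_rev (inner ℂ η (Pool.Agent.H694R3.Gf.al U z S y₀ x)), ← Complex.ofReal_sub,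
          Complex.norm_real, Real.norm_eq_abs] at h6
        linarith
      have h7 : x.1.2 = x'.1.2 := by
        have h8 : IsClosed {y : Y | dist x.1.2 y = dist x'.1.2 y} :=
          isClosed_eq (continuous_const.dist continuous_id) (continuous_const.dist continuous_id)
        have h9 : ∀ y, dist x.1.2 y = dist x'.1.2 y := by
          intro y
          have h10 : Set.range (TopologicalSpace.denseSeq Y)
              ⊆ {y : Y | dist x.1.2 y = dist x'.1.2 y} := by
            rintro _ ⟨j, rfl⟩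
            exact h3 j
          exact h8.closure_subset_iff.2 h10 (TopologicalSpace.denseRange_denseSeq Y y)
        have h11 := h9 x'.1.2
        rw [dist_self] at h11
        exact dist_eq_zero.1 h11
      apply Subtype.ext
      refine Prod.ext ?_ h7
      funext m
      rw [← Pool.Agent.H694R3.Gf.al_inner U z S y₀ x m, hxx, Pool.Agent.H694R3.Gf.al_inner]
    · -- surjectivity
      have hcl : IsClosed (Set.range fun x : Pool.Agent.H694R3.Gf.XP U z S y₀ => x.1.2) :=
        (isCompact_range hπ).isClosed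
      intro y
      have hsub : (Set.range fun n : ℤ => (S ^ n) y₀)
          ⊆ Set.range fun x : Pool.Agent.H694R3.Gf.XP U z S y₀ => x.1.2 := by
        rintro _ ⟨n, rfl⟩
        exact ⟨⟨Pool.Agent.H694R3.Gf.orb U z S y₀ n, subset_closure ⟨n, rfl⟩⟩, rfl⟩
      exact hcl.closure_subset_iff.2 hsub (hd y)
    · refine (Pool.Agent.H694R3.Gf.dense_XP U z S y₀).mono ?_
      rintro _ ⟨n, rfl⟩ x' hx'
      exact Pool.Agent.H694R3.Gf.fibre_orb U z S y₀ hz n x' hx'
    · intro x hx
      ext x'
      exact ⟨fun h => hx x' h, fun h => by rw [Set.mem_singleton_iff.1 h]; rfl⟩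

end Pool.Agent.Results.MP_5317c0_an.HilbertRepAnswers
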